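import Pool.Agent.helper70.LZ.SpecW

/-!
# Row lw:WL1 (MP_baa4d7_al): the stabiliser
-/

set_option autoImplicit false

namespace Pool.Agent.LE

open Pool.Agent.helper58.DC Pool.Agent.DI Pool.Agent.GR Pool.Agent.OB Pool.Agent.DR Pool.Agent.FI Pool.Agent.FI3 Pool.Agent.FI4

section

variable {G : Type} [Group G]

theorem WL1_conj_pow (g z : G) (n : ℕ) : g * z ^ n * g⁻¹ = (g * z * g⁻¹) ^ n := (conj_pow).symm

/-- `z` is a power of `z ^ s` -/
theorem WL1_inv {p : ℕ} (hp : p.Prime) (z : G) (e : ℕ) (hz : orderOf z = p ^ e) (s : ℕ) (hs : s ≡ 1 [MOD p]) :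
    ∃ t : ℕ, (z ^ s) ^ t = z := by
  have h1 : Nat.Coprime s p := by
    have h2 : ¬ p ∣ s := by
      intro h3
      have h4 : s ≡ 0 [MOD p] := (Nat.modEq_zero_iff_dvd).2 h3
      have h5 : 1 ≡ 0 [MOD p] := hs.symm.trans h4
      have h6 : p ∣ 1 := (Nat.modEq_zero_iff_dvd).1 h5
      exact hp.one_lt.ne' (Nat.dvd_one.1 h6)
    exact ((Nat.Prime.coprime_iff_not_dvd hp).2 h2).symm
  have h2 : Nat.Coprime s (orderOf z) := by
    rw [hz]
    exact Nat.Coprime.pow_right e h1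
  exact exists_pow_eq_self_of_coprime h2

theorem WL1_cj {p : ℕ} (hp : p.Prime) (z : G) (e : ℕ) (hz : orderOf z = p ^ e) (g : G) (s : ℕ) (hs : s ≡ 1 [MOD p])
    (h : g * z * g⁻¹ = z ^ s) : cj g (Cz (⊤ : Subgroup G) z) = Cz (⊤ : Subgroup G) z := by
  obtain ⟨t, ht⟩ := WL1_inv hp z e hz s hs
  rw [← cj_Cz, h]
  ext x
  rw [mem_Cz, mem_Cz]
  constructor
  · rintro ⟨-, h2⟩
    refine ⟨Subgroup.mem_top _, ?_⟩
    have h3 : Commute (z ^ s) x := h2
    have h4 := h3.pow_left t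
    rw [ht] at h4
    exact h4
  · rintro ⟨-, h2⟩
    refine ⟨?_, ?_⟩
    · rw [mem_cj]
      exact Subgroup.mem_top _
    · have h3 : Commute z x := h2
      exact h3.pow_left s

theorem WL1_mul {p : ℕ} (hp : p.Prime) (M : Ideal (integralClosure ℤ ℂ)) (z : G) (e : ℕ) (hz : orderOf z = p ^ e) (η₀ : G → ℂ)
    (g h : G) (hg : LW p M z η₀ g) (hh : LW p M z η₀ h) : LW p M z η₀ (g * h) := by
  obtain ⟨s, hs, hgz, hgS⟩ := hg
  obtain ⟨t, ht, hhz, hhS⟩ := hh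
  refine ⟨s * t, ?_, ?_, ?_⟩
  · have := hs.mul ht
    rwa [mul_one] at this
  · have e1 : g * h * z * (g * h)⁻¹ = g * (h * z * h⁻¹) * g⁻¹ := by group
    rw [e1, hhz, WL1_conj_pow, hgz, ← pow_mul]
  · have h1 := SB_conj hhS g
    rw [WL1_cj hp z e hz g s hs hgz, ← funMap_mul] at h1
    exact h1.trans hgS

theorem WL1_of_mem {p : ℕ} (M : Ideal (integralClosure ℤ ℂ)) (z : G) (η₀ : G → ℂ) (g : G) (hg : g ∈ Cz (⊤ : Subgroup G) z) :
    LW p M z η₀ g := by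
  refine ⟨1, Nat.ModEq.refl 1, ?_, SB_inner hg η₀⟩
  rw [pow_one]
  have h1 := (mem_Cz.1 hg).2
  rw [← h1]
  group

end

theorem WL1 : WL1_stmt := by
  intro p hp M G _ _ z e he hz η₀
  classical
  have hone : LW p M z η₀ (1 : G) := WL1_of_mem M z η₀ 1 (Subgroup.one_mem _)
  have hpow : ∀ g : G, LW p M z η₀ g → ∀ n : ℕ, LW p M z η₀ (g ^ n) := by
    intro g hg n
    induction n with
    | zero =>
      rw [pow_zero]
      exact hone
    | succ n ih =>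
      rw [pow_succ]
      exact WL1_mul hp M z e hz η₀ _ _ ih hg
  obtain ⟨L, hL⟩ : ∃ L : Subgroup G, ∀ g, g ∈ L ↔ LW p M z η₀ g :=
    ⟨{ carrier := {g | LW p M z η₀ g}
       mul_mem' := fun {g h} hg hh => WL1_mul hp M z e hz η₀ g h hg hh
       one_mem' := hone
       inv_mem' := fun {g} hg => by
        have h1 : g⁻¹ = g ^ (orderOf g - 1) := by
          have h2 : g ^ (orderOf g - 1) * g = 1 := by
            rw [← pow_succ, Nat.sub_add_cancel (orderOf_pos g), pow_orderOf_eq_one]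
          exact (eq_inv_of_mul_eq_one_left h2).symm
        change LW p M z η₀ g⁻¹
        rw [h1]
        exact hpow g hg _ }, fun _ => Iff.rfl⟩
  have hKL : Cz (⊤ : Subgroup G) z ≤ L := fun g hg => (hL g).2 (WL1_of_mem M z η₀ g hg)
  obtain ⟨K, hK⟩ : ∃ K : Subgroup G, K = Cz (⊤ : Subgroup G) z := ⟨_, rfl⟩
  have hmemK : ∀ g : G, g ∈ K ↔ g * z * g⁻¹ = z := by
    intro g
    rw [hK, mem_Cz]
    constructor
    · rintro ⟨-, h⟩
      rw [← h]
      group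
    · intro h
      refine ⟨Subgroup.mem_top _, ?_⟩
      have h2 : g * z = z * g := by
        calc g * z = (g * z * g⁻¹) * g := by group
          _ = z * g := by rw [h]
      exact h2.symm
  have hcjp : ∀ (g : G) (s : ℕ), g * z * g⁻¹ = z ^ s → ∀ n : ℕ, g ^ n * z * (g ^ n)⁻¹ = z ^ (s ^ n) := by
    intro g s h n
    induction n with
    | zero => simp
    | succ n ih =>
      have e1 : g ^ (n + 1) * z * (g ^ (n + 1))⁻¹ = g * (g ^ n * z * (g ^ n)⁻¹) * g⁻¹ := by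
        rw [pow_succ']
        group
      rw [e1, ih, WL1_conj_pow, h, ← pow_mul, ← pow_succ']
  have hpe : ∀ g ∈ L, g ^ (p ^ (e - 1)) ∈ K := by
    intro g hg
    obtain ⟨s, hs, hgz, -⟩ := (hL g).1 hg
    rw [hmemK, hcjp g s hgz]
    have h1 : (p : ℤ) ∣ (s : ℤ) - 1 := by
      have h2 := (Nat.modEq_iff_dvd).1 hs.symm
      exact_mod_cast h2
    have h2 := dvd_sub_pow_of_dvd_sub h1 (e - 1)
    rw [one_pow, Nat.sub_add_cancel he] at h2
    have h3 : s ^ p ^ (e - 1) ≡ 1 [MOD p ^ e] := by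
      refine Nat.ModEq.symm ((Nat.modEq_iff_dvd).2 ?_)
      push_cast
      exact h2
    have h4 : z ^ (s ^ p ^ (e - 1)) = z ^ 1 := by
      rw [pow_eq_pow_iff_modEq, hz]
      exact h3
    rw [h4, pow_one]
  have hcjK : ∀ g ∈ L, ∀ k ∈ K, g * k * g⁻¹ ∈ K := by
    intro g hg k hk
    obtain ⟨s, hs, hgz, -⟩ := (hL g).1 hg
    have h1 := WL1_cj hp z e hz g s hs hgz
    rw [← hK] at h1
    rw [← h1]
    exact conj_mem_cj.2 hk
  have hN : (K.subgroupOf L).Normal := by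
    refine ⟨fun k hk g => ?_⟩
    rw [Subgroup.mem_subgroupOf] at hk ⊢
    exact hcjK g.1 g.2 k.1 hk
  have := hN
  haveI := Fact.mk hp
  have hPG : IsPGroup p (L ⧸ K.subgroupOf L) := by
    intro q
    refine ⟨e - 1, ?_⟩
    obtain ⟨g, rfl⟩ := QuotientGroup.mk_surjective q
    rw [← QuotientGroup.mk_pow, QuotientGroup.eq_one_iff, Subgroup.mem_subgroupOf]
    exact hpe g.1 g.2
  obtain ⟨f, hf⟩ := (IsPGroup.iff_card).1 hPG
  refine ⟨L, f, hL, hKL, ?_, ?_⟩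
  · rw [← hK]
    exact hf
  -- the bound
  have hzp : orderOf (z ^ p) = p ^ (e - 1) := by
    rw [orderOf_pow, hz]
    have h1 : p ^ e = p ^ (e - 1) * p := by
      rw [← pow_succ, Nat.sub_add_cancel he]
    rw [h1, Nat.gcd_eq_right (Dvd.intro_left _ rfl), Nat.mul_div_cancel _ hp.pos]
  have hcomm : ∀ g ∈ L, g * z * g⁻¹ * z⁻¹ ∈ Subgroup.zpowers (z ^ p) := by
    intro g hg
    obtain ⟨s, hs, hgz, -⟩ := (hL g).1 hg
    rw [hgz]
    have h1 : (p : ℤ) ∣ (s : ℤ) - 1 := by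
      have h2 := (Nat.modEq_iff_dvd).1 hs.symm
      exact_mod_cast h2
    obtain ⟨k, hk⟩ := h1
    refine ⟨k, ?_⟩
    change (z ^ p) ^ k = z ^ s * z⁻¹
    rw [← zpow_natCast z p, ← zpow_mul, ← hk, zpow_sub, zpow_natCast, zpow_one]
  have hle : Nat.card (L ⧸ K.subgroupOf L) ≤ Nat.card (Subgroup.zpowers (z ^ p)) := by
    refine Nat.card_le_card_of_injective (fun q => (⟨q.out.1 * z * q.out.1⁻¹ * z⁻¹, hcomm _ q.out.2⟩ : Subgroup.zpowers (z ^ p))) ?_
    intro q q' h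
    have h1 := congrArg Subtype.val h
    dsimp only at h1
    have h2 : q.out.1 * z * q.out.1⁻¹ = q'.out.1 * z * q'.out.1⁻¹ := mul_right_cancel h1
    have h3 : ((q.out : L)⁻¹ * q'.out : L) ∈ K.subgroupOf L := by
      rw [Subgroup.mem_subgroupOf, hmemK]
      change (q.out.1⁻¹ * q'.out.1) * z * (q.out.1⁻¹ * q'.out.1)⁻¹ = z
      calc (q.out.1⁻¹ * q'.out.1) * z * (q.out.1⁻¹ * q'.out.1)⁻¹ = q.out.1⁻¹ * (q'.out.1 * z * q'.out.1⁻¹) * q.out.1 := by group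
        _ = q.out.1⁻¹ * (q.out.1 * z * q.out.1⁻¹) * q.out.1 := by rw [h2]
        _ = z := by group
    have h4 := QuotientGroup.eq.2 h3
    rwa [QuotientGroup.out_eq', QuotientGroup.out_eq'] at h4
  rw [hf, Nat.card_zpowers, hzp] at hle
  have h5 := (Nat.pow_le_pow_iff_right hp.one_lt).1 hle
  omega

end Pool.Agent.LE
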